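import Mathlib

set_option autoImplicit false

namespace Pool.Agent.H.MP_de06d2_co

open Finset SimpleGraph Relation

lemma up_unique {ι : Type} {T : SimpleGraph ι} (hT : T.IsTree) (r : ι) {i a b : ι}
    (ha : T.Adj i a) (hb : T.Adj i b) (h1 : T.dist r a + 1 = T.dist r i)
    (h2 : T.dist r b + 1 = T.dist r i) : a = b := by
  obtain ⟨p, hp⟩ := hT.connected.exists_walk_length_eq_dist r a
  obtain ⟨q, hq⟩ := hT.connected.exists_walk_length_eq_dist r b
  have e1 := (p.concat ha.symm).isPath_of_length_eq_dist (by rw [Walk.length_concat, hp, h1])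
  have e2 := (q.concat hb.symm).isPath_of_length_eq_dist (by rw [Walk.length_concat, hq, h2])
  have := congrArg Subtype.val ((hT.isAcyclic.subsingleton_path r i).elim ⟨_, e1⟩ ⟨_, e2⟩)
  exact (Walk.concat_inj this).1

lemma down {β : Type} {H : SimpleGraph β} (d : β → ℕ)
    (st : ∀ x y, H.Adj x y → d x = d y + 1 ∨ d y = d x + 1)
    (un : ∀ i a b, H.Adj i a → H.Adj i b → d a + 1 = d i → d b + 1 = d i → a = b)
    {x t : β} (w : H.Walk x t) : ∀ (i : β) (h : H.Adj i x), (Walk.cons h w).IsPath →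
      d x = d i + 1 → d i < d t := by
  induction w with
  | nil => intro i _ _ e; omega
  | @cons x y t h' w ih =>
    intro i h hp e
    rw [Walk.cons_isPath_iff] at hp
    rcases st x y h' with e' | e'
    · have := un x i y h.symm h' e.symm e'.symm
      subst this
      exact absurd (by simp) hp.2
    · have := ih x h' hp.1 e'
      omega

lemma up_mem {ι : Type} {T : SimpleGraph ι} (hT : T.IsTree) (r : ι) {S : Set ι}
    (hS : (T.induce S).Connected) {i t : ι} (hi : i ∈ S) (ht : t ∈ S)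
    (hd : T.dist r t ≤ T.dist r i) (hne : i ≠ t) :
    ∃ a ∈ S, T.Adj i a ∧ T.dist r a + 1 = T.dist r i := by
  obtain ⟨p, hp⟩ := hS.exists_isPath ⟨i, hi⟩ ⟨t, ht⟩
  obtain ⟨x, h, w, rfl⟩ := p.exists_eq_cons_of_ne (fun e => hne (congrArg Subtype.val e))
  rcases hT.dist_eq_dist_add_one_of_adj r (show T.Adj i x.1 from h) with e | e
  · exact ⟨x.1, x.2, h, e.symm⟩
  · have := down (H := T.induce S) (fun x => T.dist r x.1)
      (fun x y h => hT.dist_eq_dist_add_one_of_adj r h)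
      (fun i a b h1 h2 h3 h4 => Subtype.ext (up_unique hT r h1 h2 h3 h4)) w _ h hp e
    exact absurd this (not_lt.2 hd)

/-- elimination structure. -/
structure Elim {V : Type} (G : SimpleGraph V) (k : ℕ) (ρ : V → ℕ) (Bk : V → Finset V) : Prop where
  inj : Function.Injective ρ
  card : ∀ v, (Bk v).card ≤ k
  lt : ∀ u v, u ∈ Bk v → ρ u < ρ v
  adj : ∀ u v, G.Adj u v → ρ u < ρ v → u ∈ Bk v
  clq : ∀ v a b, a ∈ Bk v → b ∈ Bk v → ρ a < ρ b → a ∈ Bk b

theorem elim {V ι : Type} [Fintype V] [Finite ι] (G : SimpleGraph V) (k : ℕ) (T : SimpleGraph ι)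
    (hT : T.IsTree) (B : ι → Finset V) (h1 : ∀ i, (B i).card ≤ k)
    (h3 : ∀ u v : V, G.Adj u v → ∃ i, u ∈ B i ∧ v ∈ B i)
    (h4 : ∀ v : V, (T.induce {i | v ∈ B i}).Connected) : ∃ ρ Bk, Elim G k ρ Bk := by
  classical
  obtain ⟨r⟩ := hT.connected.nonempty
  have : ∀ v, ∃ t, v ∈ B t ∧ ∀ i, v ∈ B i → T.dist r t ≤ T.dist r i := by
    intro v
    obtain ⟨⟨i, hi⟩⟩ := (h4 v).nonempty
    exact Set.exists_min_image {i | v ∈ B i} (T.dist r) (Set.toFinite _) ⟨i, hi⟩
  choose top t1 t2 using this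
  have key : ∀ u v, T.dist r (top u) ≤ T.dist r (top v) → ∀ n j, T.dist r j = n → u ∈ B j →
      v ∈ B j → u ∈ B (top v) := by
    intro u v huv n
    induction n using Nat.strong_induction_on with
    | _ n ih =>
    intro j hj hu hv
    by_cases e : j = top v
    · rwa [← e]
    obtain ⟨a, a1, a2, a3⟩ := up_mem hT r (h4 v) hv (t1 v) (t2 v j hv) e
    have := t2 v a a1
    obtain ⟨b, b1, b2, b3⟩ := up_mem hT r (h4 u) hu (t1 u) (t2 u j hu)
      (fun e => by rw [← e] at huv; omega)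
    obtain rfl := up_unique hT r a2 b2 a3 b3
    exact ih _ (by omega) a rfl b1 a1
  let ix := Fintype.equivFin V
  let ρ : V → ℕ := fun v => Fintype.card V * T.dist r (top v) + ix v
  have mono : ∀ u v, ρ u < ρ v → T.dist r (top u) ≤ T.dist r (top v) := by
    intro u v h
    by_contra hn
    have := Nat.mul_le_mul_left (Fintype.card V) (Nat.succ_le_of_lt (not_le.1 hn))
    have := (ix v).2
    simp only [ρ, Nat.mul_succ] at *
    omega
  refine ⟨ρ, fun v => (B (top v)).filter fun u => ρ u < ρ v, ?_,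
    fun v => (card_filter_le _ _).trans (h1 _), fun u v h => (mem_filter.1 h).2, ?_, ?_⟩
  · intro u v h
    have := congrArg (· % Fintype.card V) h
    simp only [ρ, Nat.mul_add_mod, Nat.mod_eq_of_lt (ix _).2] at this
    exact ix.injective (Fin.ext this)
  · intro u v h hl
    obtain ⟨i, i1, i2⟩ := h3 u v h
    exact mem_filter.2 ⟨key u v (mono u v hl) _ i rfl i1 i2, hl⟩
  · intro v a b ha hb hl
    exact mem_filter.2 ⟨key a b (mono a b hl) _ _ rfl (mem_filter.1 ha).1 (mem_filter.1 hb).1, hl⟩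

section sep
variable {V : Type} [Fintype V] [DecidableEq V] {G : SimpleGraph V} {k : ℕ} {ρ : V → ℕ}
  {Bk : V → Finset V} (E : Elim G k ρ Bk)

open Classical in
noncomputable def Ds (Bk : V → Finset V) (w : V) : Finset V :=
  univ.filter fun x => ReflTransGen (fun a b => a ∈ Bk b) w x

omit [DecidableEq V] in
lemma mem_Ds {w x : V} : x ∈ Ds Bk w ↔ ReflTransGen (fun a b => a ∈ Bk b) w x := by simp [Ds]

include E

omit [Fintype V] [DecidableEq V] in
lemma back {w x : V} (h : ReflTransGen (fun a b => a ∈ Bk b) w x) :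
    ρ w ≤ ρ x ∧ ∀ y ∈ Bk x, ReflTransGen (fun a b => a ∈ Bk b) w y ∨ y ∈ Bk w := by
  induction h with
  | refl => exact ⟨le_rfl, fun y hy => .inr hy⟩
  | @tail z x h1 h2 ih =>
    refine ⟨ih.1.trans (E.lt _ _ h2).le, fun y hy => ?_⟩
    rcases lt_trichotomy (ρ y) (ρ z) with h | h | h
    · exact ih.2 y (E.clq x y z hy h2 h)
    · rw [E.inj h]; exact .inl h1
    · exact .inl (h1.tail (E.clq x z y h2 hy h))

lemma group (S X : Finset V) (t : ℕ) (ht : 1 ≤ t) (Q : V → Prop)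
    (q1 : ∀ c, Q c → (S ∩ Ds Bk c).card ≤ t) (q2 : ∀ c y, Q c → y ∈ Bk c → y ∈ X ∨ Q y)
    (q3 : ∀ c x, Q c → x ∈ Ds Bk c → x ∉ X)
    (q4 : ∃ S' ⊆ S, t ≤ S'.card ∧ ∀ x ∈ S', ∃ c, Q c ∧ x ∈ Ds Bk c) :
    ∃ A : Finset V, Disjoint A X ∧ (∀ x ∈ A, ∀ y, (y ∈ Bk x ∨ x ∈ Bk y) → y ∈ A ∨ y ∈ X) ∧
      t ≤ (S ∩ A).card ∧ (S ∩ A).card ≤ 2 * t := by
  classical
  let A : ℕ → Finset V := fun j => univ.filter fun x => ∃ c, Q c ∧ ρ c < j ∧ x ∈ Ds Bk c
  have ex : ∃ j, t ≤ (S ∩ A j).card := by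
    obtain ⟨S', s1, s2, s3⟩ := q4
    refine ⟨univ.sup ρ + 1, s2.trans (card_le_card fun x hx => mem_inter.2 ⟨s1 hx, ?_⟩)⟩
    obtain ⟨c, c1, c2⟩ := s3 x hx
    exact mem_filter.2 ⟨mem_univ _, c, c1, Nat.lt_succ_of_le (le_sup (mem_univ c)), c2⟩
  have h0 : Nat.find ex ≠ 0 := by
    intro e
    have := Nat.find_spec ex
    rw [e] at this
    simp [A] at this; omega
  obtain ⟨j, hj⟩ := Nat.exists_eq_succ_of_ne_zero h0
  have h1 : t ≤ (S ∩ A (j + 1)).card := by have := Nat.find_spec ex; rwa [hj] at this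
  have h2 : ¬ t ≤ (S ∩ A j).card := Nat.find_min ex (by omega)
  refine ⟨A (j + 1), disjoint_left.2 fun x hx => ?_, ?_, h1, ?_⟩
  · obtain ⟨c, c1, -, c3⟩ := (mem_filter.1 hx).2
    exact q3 c x c1 c3
  · intro x hx y hy
    obtain ⟨c, c1, c2, c3⟩ := (mem_filter.1 hx).2
    rw [mem_Ds] at c3
    rcases hy with hy | hy
    · rcases (back E c3).2 y hy with h | h
      · exact .inl (mem_filter.2 ⟨mem_univ _, c, c1, c2, mem_Ds.2 h⟩)
      · rcases q2 c y c1 h with h' | h'
        · exact .inr h'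
        · exact .inl (mem_filter.2 ⟨mem_univ _, y, h', (E.lt _ _ h).trans c2, mem_Ds.2 .refl⟩)
    · exact .inl (mem_filter.2 ⟨mem_univ _, c, c1, c2, mem_Ds.2 (c3.tail hy)⟩)
  · by_cases h : ∃ c, Q c ∧ ρ c = j
    · obtain ⟨c, c1, c2⟩ := h
      have : S ∩ A (j + 1) ⊆ S ∩ A j ∪ S ∩ Ds Bk c := by
        intro x hx
        obtain ⟨x1, x2⟩ := mem_inter.1 hx
        obtain ⟨c', d1, d2, d3⟩ := (mem_filter.1 x2).2
        by_cases e : ρ c' = j
        · rw [E.inj (e.trans c2.symm)] at d3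
          exact mem_union_right _ (mem_inter.2 ⟨x1, d3⟩)
        · exact mem_union_left _ (mem_inter.2 ⟨x1, mem_filter.2 ⟨mem_univ _, c', d1, by omega, d3⟩⟩)
      have := (card_le_card this).trans (card_union_le _ _)
      have := q1 c c1
      omega
    · have : S ∩ A (j + 1) ⊆ S ∩ A j := by
        intro x hx
        obtain ⟨x1, x2⟩ := mem_inter.1 hx
        obtain ⟨c', d1, d2, d3⟩ := (mem_filter.1 x2).2
        have : ρ c' ≠ j := fun e => h ⟨c', d1, e⟩
        exact mem_inter.2 ⟨x1, mem_filter.2 ⟨mem_univ _, c', d1, by omega, d3⟩⟩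
      have := card_le_card this
      omega

theorem sep0 (S : Finset V) (t : ℕ) (ht : 1 ≤ t) (hS : t ≤ S.card) :
    ∃ A X : Finset V, X.card ≤ k + 1 ∧ Disjoint A X ∧
      (∀ x ∈ A, ∀ y, G.Adj x y → y ∈ A ∨ y ∈ X) ∧ t ≤ (S ∩ A).card ∧ (S ∩ A).card ≤ 2 * t := by
  classical
  have conv : ∀ x y, G.Adj x y → y ∈ Bk x ∨ x ∈ Bk y := by
    intro x y h
    rcases lt_trichotomy (ρ x) (ρ y) with e | e | e
    · exact .inr (E.adj _ _ h e)
    · exact absurd (E.inj e) h.ne
    · exact .inl (E.adj _ _ h.symm e)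
  by_cases h : (univ.filter fun w => t < (S ∩ Ds Bk w).card).Nonempty
  · obtain ⟨w, w1, w2⟩ := exists_max_image _ ρ h
    replace w1 := (mem_filter.1 w1).2
    obtain ⟨A, a1, a2, a3⟩ := group E S (insert w (Bk w)) t ht (fun c => w ∈ Bk c)
      (fun c hc => by
        by_contra hn
        exact absurd (w2 c (mem_filter.2 ⟨mem_univ _, not_le.1 hn⟩)) (not_le.2 (E.lt _ _ hc)))
      (fun c y hc hy => by
        rcases lt_trichotomy (ρ y) (ρ w) with e | e | e
        · exact .inl (mem_insert_of_mem (E.clq c y w hy hc e))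
        · exact .inl (mem_insert.2 (.inl (E.inj e)))
        · exact .inr (E.clq c w y hc hy e))
      (fun c x hc hx hX => by
        have := (back E (mem_Ds.1 hx)).1
        have := E.lt _ _ hc
        rcases mem_insert.1 hX with rfl | hX
        · omega
        · have := E.lt _ _ hX; omega)
      ⟨(S ∩ Ds Bk w).erase w, (erase_subset _ _).trans inter_subset_left,
        by have := pred_card_le_card_erase (s := S ∩ Ds Bk w) (a := w); omega,
        fun x hx => by
          obtain ⟨x1, x2⟩ := mem_erase.1 hx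
          rcases (mem_Ds.1 (mem_inter.1 x2).2).cases_head with e | ⟨c, c1, c2⟩
          · exact absurd e.symm x1
          · exact ⟨c, c1, mem_Ds.2 c2⟩⟩
    exact ⟨A, _, (card_insert_le _ _).trans (Nat.succ_le_succ (E.card w)), a1,
      fun x hx y hy => a2 x hx y (conv x y hy), a3⟩
  · obtain ⟨A, a1, a2, a3⟩ := group E S ∅ t ht (fun _ => True)
      (fun c _ => not_lt.1 fun hn => h ⟨c, mem_filter.2 ⟨mem_univ _, hn⟩⟩)
      (fun _ _ _ _ => .inr trivial) (fun _ _ _ _ => by simp)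
      ⟨S, subset_rfl, hS, fun x _ => ⟨x, trivial, mem_Ds.2 .refl⟩⟩
    exact ⟨A, ∅, by simp, a1, fun x hx y hy => a2 x hx y (conv x y hy), a3⟩

end sep

end Pool.Agent.H.MP_de06d2_co
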