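import Mathlib

set_option autoImplicit false

namespace Pool.Agent.H.MP_de06d2_co

open Finset

variable {V : Type} [DecidableEq V]

/-- the inductive statement. -/
def Good (R : V → V → Prop) (K M : ℕ) (U S : Finset V) (b : Bool) : Prop :=
  ∃ (χ : V → Bool) (B : Finset V), S ⊆ B ∧ B ⊆ U ∧ (B = S ∨ B.card + 4 * K ≤ 2 * S.card) ∧
    (∀ x ∈ B, χ x = b) ∧ (∀ x ∈ B, ∀ y ∈ U, R x y → χ y = b → y ∈ B) ∧
    ∀ x ∈ U, x ∉ B → ∃ C : Finset V, x ∈ C ∧ C.card ≤ 2 * M ∧ (∀ y ∈ C, y ∈ U ∧ y ∉ B) ∧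
      ∀ y ∈ C, ∀ z ∈ U, R y z → χ y = χ z → z ∈ C

omit [DecidableEq V] in
lemma side {R : V → V → Prop} {M : ℕ} {U U1 B B1 : Finset V} {χ χ1 : V → Bool}
    (h1 : ∀ x ∈ U1, χ x = χ1 x) (h2 : ∀ y ∈ U1, y ∉ B1 → y ∉ B ∧ ∀ z ∈ U, R y z → z ∈ U1)
    (h3 : U1 ⊆ U) {x : V}
    (h : ∃ C : Finset V, x ∈ C ∧ C.card ≤ 2 * M ∧ (∀ y ∈ C, y ∈ U1 ∧ y ∉ B1) ∧
      ∀ y ∈ C, ∀ z ∈ U1, R y z → χ1 y = χ1 z → z ∈ C) :
    ∃ C : Finset V, x ∈ C ∧ C.card ≤ 2 * M ∧ (∀ y ∈ C, y ∈ U ∧ y ∉ B) ∧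
      ∀ y ∈ C, ∀ z ∈ U, R y z → χ y = χ z → z ∈ C := by
  obtain ⟨C, c1, c2, c3, c4⟩ := h
  refine ⟨C, c1, c2, fun y hy => ⟨h3 (c3 y hy).1, (h2 y (c3 y hy).1 (c3 y hy).2).1⟩, ?_⟩
  intro y hy z hz hr e
  have hz1 := (h2 y (c3 y hy).1 (c3 y hy).2).2 z hz hr
  exact c4 y hy z hz1 hr (by rw [← h1 y (c3 y hy).1, ← h1 z hz1, e])

theorem good (R : V → V → Prop) (hs : ∀ x y, R x y → R y x) (K d : ℕ) (hK : 1 ≤ K) (hd : 1 ≤ d)
    (nb : V → Finset V) (hnb : ∀ x y, R x y → y ∈ nb x) (hd' : ∀ x, (nb x).card ≤ d)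
    (sep : ∀ S : Finset V, 16 * K ≤ S.card → ∃ A X : Finset V, X.card ≤ K ∧ Disjoint A X ∧
      (∀ x ∈ A, ∀ y, R x y → y ∈ A ∨ y ∈ X) ∧ 4 * K ≤ (S ∩ A).card ∧
      4 * K ≤ (S \ (A ∪ X)).card) :
    ∀ (n : ℕ) (U : Finset V), U.card = n → ∀ S ⊆ U, (S.Nonempty ∨ U = ∅) →
      S.card ≤ 16 * K * d → ∀ b, Good R K (16 * K * d) U S b := by
  intro n
  induction n using Nat.strong_induction_on with
  | _ n ih =>
  intro U hU S hSU hne hS b
  have hM : 1 ≤ 16 * K * d := Nat.mul_pos (by omega) hd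
  rcases hne with hne | rfl
  swap
  · exact ⟨fun _ => b, S, subset_rfl, hSU, .inl rfl, fun _ _ => rfl, by simp, by simp⟩
  by_cases hc : S.card ≤ 16 * K
  · have hlt : (U \ S).card < n := by
      rw [← hU]; exact card_lt_card (sdiff_ssubset hSU hne)
    obtain ⟨S', s1, s2, s3, s4⟩ : ∃ S' ⊆ U \ S, (S'.Nonempty ∨ U \ S = ∅) ∧
        S'.card ≤ 16 * K * d ∧ ∀ x ∈ S, ∀ y ∈ U \ S, R x y → y ∈ S' := by
      by_cases h : (S.biUnion nb ∩ (U \ S)).Nonempty
      · refine ⟨_, inter_subset_right, .inl h, (card_le_card inter_subset_left).trans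
          ((card_biUnion_le_card_mul _ _ _ fun x _ => hd' x).trans (Nat.mul_le_mul_right d hc)),
          fun x hx y hy hr => mem_inter.2 ⟨mem_biUnion.2 ⟨x, hx, hnb x y hr⟩, hy⟩⟩
      · have h' : ∀ x ∈ S, ∀ y ∈ U \ S, ¬ R x y := fun x hx y hy hr =>
          h ⟨y, mem_inter.2 ⟨mem_biUnion.2 ⟨x, hx, hnb x y hr⟩, hy⟩⟩
        rcases (U \ S).eq_empty_or_nonempty with e | ⟨v, hv⟩
        · exact ⟨∅, empty_subset _, .inr e, by simp, fun x hx y hy hr => (h' x hx y hy hr).elim⟩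
        · exact ⟨{v}, by simpa using hv, .inl (by simp), by simpa using hM,
            fun x hx y hy hr => (h' x hx y hy hr).elim⟩
    obtain ⟨χ, B, b1, b2, b3, b4, b5, b6⟩ := ih _ hlt _ rfl S' s1 s2 s3 (!b)
    have e1 : ∀ x ∈ U \ S, (if x ∈ S then b else χ x) = χ x := fun x hx =>
      if_neg (mem_sdiff.1 hx).2
    refine ⟨fun x => if x ∈ S then b else χ x, S, subset_rfl, hSU, .inl rfl,
      fun x hx => if_pos hx, ?_, ?_⟩
    · intro x hx y hy hr e
      by_contra hn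
      have hy' := mem_sdiff.2 ⟨hy, hn⟩
      have := b4 y (b1 (s4 x hx y hy' hr))
      simp only [hn, if_false, this] at e
      cases b <;> simp at e
    · intro x hx hn
      by_cases hB : x ∈ B
      · refine ⟨B, hB, by rcases b3 with rfl | h <;> omega, fun y hy => mem_sdiff.1 (b2 hy), ?_⟩
        intro y hy z hz hr e
        simp only [(mem_sdiff.1 (b2 hy)).2, if_false, b4 y hy] at e
        by_cases hz' : z ∈ S
        · simp only [hz', if_true] at e
          cases b <;> simp at e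
        · simp only [hz', if_false] at e
          exact b5 y hy z (mem_sdiff.2 ⟨hz, hz'⟩) hr e.symm
      · refine side e1 (fun y hy hy' => ⟨(mem_sdiff.1 hy).2, fun z hz hr => ?_⟩) sdiff_subset
          (b6 x (mem_sdiff.2 ⟨hx, hn⟩) hB)
        exact mem_sdiff.2 ⟨hz, fun hz' => hy' (b1 (s4 z hz' y hy (hs _ _ hr)))⟩
  · obtain ⟨A, X, x1, x2, x3, x4, x5⟩ := sep S (by omega)
    have dj : ∀ y ∈ A, y ∉ X := fun y hy => disjoint_left.1 x2 hy
    have c0 : (S ∩ A).card + (S \ (A ∪ X)).card ≤ S.card := by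
      rw [← card_union_of_disjoint (disjoint_left.2 fun y h1 h2 => by simp_all)]
      exact card_le_card (union_subset inter_subset_left sdiff_subset)
    have cX : (X ∩ U).card ≤ K := (card_le_card inter_subset_left).trans x1
    have c1 := card_union_le (S ∩ A) (X ∩ U)
    have c2 := card_union_le (S \ (A ∪ X)) (X ∩ U)
    have c3 := card_le_card (subset_union_left (s₁ := S ∩ A) (s₂ := X ∩ U))
    have c4 := card_le_card (subset_union_left (s₁ := S \ (A ∪ X)) (s₂ := X ∩ U))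
    have l1 : (U ∩ (A ∪ X)).card < n := by
      obtain ⟨v, hv⟩ := card_pos.1 (show 0 < (S \ (A ∪ X)).card by omega)
      rw [← hU]
      refine card_lt_card ⟨inter_subset_left, fun h => ?_⟩
      exact (mem_sdiff.1 hv).2 (mem_inter.1 (h (hSU (mem_sdiff.1 hv).1))).2
    have l2 : (U \ A).card < n := by
      obtain ⟨v, hv⟩ := card_pos.1 (show 0 < (S ∩ A).card by omega)
      rw [← hU]
      refine card_lt_card ⟨sdiff_subset, fun h => ?_⟩
      exact (mem_sdiff.1 (h (hSU (mem_inter.1 hv).1))).2 (mem_inter.1 hv).2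
    obtain ⟨χ1, B1, p1, p2, p3, p4, p5, p6⟩ := ih _ l1 _ rfl (S ∩ A ∪ X ∩ U)
      (fun y hy => by have := @hSU y; grind) (.inl (card_pos.1 (by omega))) (by omega) b
    obtain ⟨χ2, B2, q1, q2, q3, q4, q5, q6⟩ := ih _ l2 _ rfl (S \ (A ∪ X) ∪ X ∩ U)
      (fun y hy => by have := @hSU y; have := dj y; grind) (.inl (card_pos.1 (by omega)))
      (by omega) b
    have xb1 : ∀ y ∈ X, y ∈ U → y ∈ B1 := fun y h1 h2 => p1 (by simp [h1, h2])
    have xb2 : ∀ y ∈ X, y ∈ U → y ∈ B2 := fun y h1 h2 => q1 (by simp [h1, h2])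
    have e1 : ∀ y ∈ U ∩ (A ∪ X), (if y ∈ A then χ1 y else χ2 y) = χ1 y := by
      intro y hy
      split_ifs with h
      · rfl
      · have h2 : y ∈ X := by grind
        rw [p4 y (xb1 y h2 (mem_inter.1 hy).1), q4 y (xb2 y h2 (mem_inter.1 hy).1)]
    have e2 : ∀ y ∈ U \ A, (if y ∈ A then χ1 y else χ2 y) = χ2 y := fun y hy =>
      if_neg (mem_sdiff.1 hy).2
    refine ⟨fun y => if y ∈ A then χ1 y else χ2 y, B1 ∪ B2, ?_, ?_, .inr ?_, ?_, ?_, ?_⟩
    · intro y hy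
      have := @p1 y; have := @q1 y; have := @hSU y
      grind
    · exact union_subset (p2.trans inter_subset_left) (q2.trans sdiff_subset)
    · have := card_union_le B1 B2
      have a1 : B1.card + 4 * K ≤ 2 * (S ∩ A ∪ X ∩ U).card := by
        rcases p3 with h | h
        · rw [h]; omega
        · exact h
      have a2 : B2.card + 4 * K ≤ 2 * (S \ (A ∪ X) ∪ X ∩ U).card := by
        rcases q3 with h | h
        · rw [h]; omega
        · exact h
      omega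
    · intro y hy
      rcases mem_union.1 hy with h | h
      · exact (e1 y (p2 h)).trans (p4 y h)
      · exact (e2 y (q2 h)).trans (q4 y h)
    · intro x hx y hy hr e
      by_cases hA : y ∈ A
      · have hy1 : y ∈ U ∩ (A ∪ X) := by simp [hy, hA]
        have hx1 : x ∈ B1 := by
          rcases mem_union.1 hx with h | h
          · exact h
          · have := mem_sdiff.1 (q2 h)
            exact xb1 x ((x3 y hA x (hs _ _ hr)).resolve_left this.2) this.1
        exact mem_union_left _ (p5 x hx1 y hy1 hr ((e1 y hy1).symm.trans e))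
      · by_cases hX : y ∈ X
        · exact mem_union_left _ (xb1 y hX hy)
        have hy1 : y ∈ U \ A := mem_sdiff.2 ⟨hy, hA⟩
        have hx1 : x ∈ B2 := by
          rcases mem_union.1 hx with h | h
          · obtain ⟨h1, h2⟩ := mem_inter.1 (p2 h)
            rcases mem_union.1 h2 with h2 | h2
            · exact ((x3 x h2 y hr).elim hA hX).elim
            · exact xb2 x h2 h1
          · exact h
        exact mem_union_right _ (q5 x hx1 y hy1 hr ((e2 y hy1).symm.trans e))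
    · intro x hx hn
      rw [mem_union, not_or] at hn
      by_cases hA : x ∈ A
      · refine side e1 (fun y hy hy' => ?_) inter_subset_left (p6 x (by simp [hx, hA]) hn.1)
        obtain ⟨h1, h2⟩ := mem_inter.1 hy
        have h3 : y ∈ A := (mem_union.1 h2).resolve_right fun h => hy' (xb1 y h h1)
        exact ⟨fun h => (mem_union.1 h).elim hy' fun h => (mem_sdiff.1 (q2 h)).2 h3,
          fun z hz hr => mem_inter.2 ⟨hz, mem_union.2 (x3 y h3 z hr)⟩⟩
      · refine side e2 (fun y hy hy' => ?_) sdiff_subset (q6 x (mem_sdiff.2 ⟨hx, hA⟩) hn.2)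
        obtain ⟨h1, h2⟩ := mem_sdiff.1 hy
        have h3 : y ∉ X := fun h => hy' (xb2 y h h1)
        refine ⟨fun h => (mem_union.1 h).elim (fun h => ?_) hy',
          fun z hz hr => mem_sdiff.2 ⟨hz, fun h => (x3 z h y (hs _ _ hr)).elim h2 h3⟩⟩
        exact (mem_union.1 (mem_inter.1 (p2 h)).2).elim h2 h3

theorem adov [Fintype V] (R : V → V → Prop) (hs : ∀ x y, R x y → R y x) (K d : ℕ) (hK : 1 ≤ K)
    (hd : 1 ≤ d) (nb : V → Finset V) (hnb : ∀ x y, R x y → y ∈ nb x) (hd' : ∀ x, (nb x).card ≤ d)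
    (sep : ∀ S : Finset V, 16 * K ≤ S.card → ∃ A X : Finset V, X.card ≤ K ∧ Disjoint A X ∧
      (∀ x ∈ A, ∀ y, R x y → y ∈ A ∨ y ∈ X) ∧ 4 * K ≤ (S ∩ A).card ∧
      4 * K ≤ (S \ (A ∪ X)).card) :
    ∃ χ : V → Bool, ∀ x, ∃ C : Finset V, x ∈ C ∧ C.card ≤ 2 * (16 * K * d) ∧
      ∀ y ∈ C, ∀ z, R y z → χ y = χ z → z ∈ C := by
  have hM : 1 ≤ 16 * K * d := Nat.mul_pos (by omega) hd
  rcases isEmpty_or_nonempty V with h | ⟨⟨v⟩⟩
  · exact ⟨fun _ => true, fun x => h.elim x⟩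
  obtain ⟨χ, B, b1, b2, b3, b4, b5, b6⟩ := good R hs K d hK hd nb hnb hd' sep _ univ rfl {v}
    (subset_univ _) (.inl (by simp)) (by simpa using hM) true
  refine ⟨χ, fun x => ?_⟩
  by_cases hx : x ∈ B
  · refine ⟨B, hx, ?_, fun y hy z hr e => b5 y hy z (mem_univ _) hr (e ▸ b4 y hy)⟩
    rcases b3 with rfl | h
    · simp; omega
    · simp at h; omega
  · obtain ⟨C, c1, c2, -, c4⟩ := b6 x (mem_univ _) hx
    exact ⟨C, c1, c2, fun y hy z hr e => c4 y hy z (mem_univ _) hr e⟩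

end Pool.Agent.H.MP_de06d2_co
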