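import Mathlib
import Pool.Agent.H.MP_de06d2_co.A
import Pool.Agent.H.MP_de06d2_co.B

set_option autoImplicit false

namespace Pool.Agent.H.MP_de06d2_co

open Finset SimpleGraph

section
variable {V : Type} (G : SimpleGraph V) (ρ : V → ℕ)

def Par (u v : V) : Prop := G.Adj u v ∧ ρ u < ρ v ∧ ∀ u', G.Adj u' v → ρ u ≤ ρ u'

def Exc (v : V) : Prop := ∃ b u a, Par G ρ b v ∧ G.Adj v u ∧ ¬ Par G ρ v u ∧ u ≠ b ∧
  Par G ρ a u ∧ ρ a < ρ b

def Fo (v : V) : Prop := (∃ b, Par G ρ b v) ∧ ¬ Exc G ρ v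

def RR (x y : V) : Prop := G.Adj x y ∧ ¬ (Par G ρ x y ∧ Fo G ρ y) ∧ ¬ (Par G ρ y x ∧ Fo G ρ x)

open Classical in
noncomputable def col (F : V → Prop) (pr : V → V) (h : ∀ v, F v → ρ (pr v) < ρ v) (χ : V → Bool)
    (v : V) : Bool :=
  if _hv : F v then !col F pr h χ (pr v) else χ v
termination_by ρ v
decreasing_by exact h v _hv

end

variable {V : Type} {G : SimpleGraph V} {ρ : V → ℕ} {k : ℕ} {Bk : V → Finset V}

lemma uniq (hg : ((7 : ℕ) : ℕ∞) ≤ G.egirth) {u v : V} (p q : G.Walk u v) (hp : p.IsPath)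
    (hq : q.IsPath) (h : p.length + q.length ≤ 6) : p = q := by
  by_contra hn
  obtain ⟨w, -, -, c, c1, c2⟩ := hp.exists_isCycle_length_le_add_of_ne hq hn
  have := hg.trans (egirth_le_length c1)
  have : 7 ≤ c.length := by exact_mod_cast this
  omega

lemma g3 (hg : ((7 : ℕ) : ℕ∞) ≤ G.egirth) {a x y : V} (h1 : G.Adj a x) (h2 : G.Adj x y)
    (h3 : G.Adj a y) : False := by
  have := uniq hg (.cons h1 (.cons h2 .nil)) (.cons h3 .nil)
    (by simp [h1.ne, h2.ne, h3.ne]) (by simp [h3.ne]) (by simp)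
  simpa using congrArg Walk.length this

lemma g4 (hg : ((7 : ℕ) : ℕ∞) ≤ G.egirth) {a b x y : V} (h : a ≠ b) (h1 : G.Adj a x)
    (h2 : G.Adj x b) (h3 : G.Adj a y) (h4 : G.Adj y b) : x = y := by
  have := uniq hg (.cons h1 (.cons h2 .nil)) (.cons h3 (.cons h4 .nil))
    (by simp [h1.ne, h2.ne, h]) (by simp [h3.ne, h4.ne, h]) (by simp)
  simpa using congrArg (fun w => w.getVert 1) this

lemma g6 (hg : ((7 : ℕ) : ℕ∞) ≤ G.egirth) {a b x y x' y' : V} (h : b ≠ a) (h1 : G.Adj b x)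
    (h2 : G.Adj x y) (h3 : G.Adj y a) (h4 : b ≠ y) (h5 : x ≠ a) (k1 : G.Adj b x')
    (k2 : G.Adj x' y') (k3 : G.Adj y' a) (k4 : b ≠ y') (k5 : x' ≠ a) : x = x' := by
  have := uniq hg (.cons h1 (.cons h2 (.cons h3 .nil))) (.cons k1 (.cons k2 (.cons k3 .nil)))
    (by simp [h1.ne, h2.ne, h3.ne, h, h4, h5]) (by simp [k1.ne, k2.ne, k3.ne, h, k4, k5]) (by simp)
  simpa using congrArg (fun w => w.getVert 1) this

lemma par_unique (E : Elim G k ρ Bk) {a b v : V} (ha : Par G ρ a v) (hb : Par G ρ b v) : a = b :=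
  E.inj (le_antisymm (ha.2.2 b hb.1) (hb.2.2 a ha.1))

lemma indep (E : Elim G k ρ Bk) (hg : ((7 : ℕ) : ℕ∞) ≤ G.egirth) {x y : V} (hx : Fo G ρ x)
    (hy : Fo G ρ y) (h : RR G ρ x y) : False := by
  obtain ⟨a, ha⟩ := hx.1
  obtain ⟨b, hb⟩ := hy.1
  have n1 : ¬ Par G ρ x y := fun e => h.2.1 ⟨e, hy⟩
  have n2 : ¬ Par G ρ y x := fun e => h.2.2 ⟨e, hx⟩
  rcases lt_trichotomy (ρ a) (ρ b) with e | e | e
  · exact hy.2 ⟨b, x, a, hb, h.1.symm, n2, by rintro rfl; exact n1 hb, ha, e⟩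
  · obtain rfl := E.inj e
    exact g3 hg ha.1 h.1 hb.1
  · exact hx.2 ⟨a, y, b, ha, h.1, n1, by rintro rfl; exact n2 ha, hb, e⟩

lemma deg [Fintype V] (E : Elim G k ρ Bk) (hg : ((7 : ℕ) : ℕ∞) ≤ G.egirth) :
    ∃ nb : V → Finset V, (∀ x y, RR G ρ x y → y ∈ nb x) ∧ ∀ x, (nb x).card ≤ 3 * k := by
  classical
  refine ⟨fun b => Bk b ∪ (univ.filter fun v => G.Adj b v ∧ ρ b < ρ v ∧ ¬ Par G ρ b v) ∪
    (univ.filter fun v => Par G ρ b v ∧ Exc G ρ v), ?_, fun b => ?_⟩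
  · intro b v h
    simp only [mem_union, mem_filter, mem_univ, true_and]
    rcases lt_trichotomy (ρ b) (ρ v) with e | e | e
    · by_cases hp : Par G ρ b v
      · exact .inr ⟨hp, by_contra fun hn => h.2.1 ⟨hp, ⟨b, hp⟩, hn⟩⟩
      · exact .inl (.inr ⟨h.1, e, hp⟩)
    · exact absurd (E.inj e) h.1.ne
    · exact .inl (.inl (E.adj _ _ h.1.symm e))
  have c1 : (univ.filter fun v => G.Adj b v ∧ ρ b < ρ v ∧ ¬ Par G ρ b v).card ≤ (Bk b).card := by
    refine card_le_card_of_forall_subsingleton (fun v a => G.Adj b v ∧ G.Adj v a ∧ b ≠ a) ?_ ?_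
    · intro v hv
      obtain ⟨h1, h2, h3⟩ := (mem_filter.1 hv).2
      obtain ⟨a, a1, a2⟩ := exists_min_image (univ.filter fun u => G.Adj u v) ρ
        ⟨b, by simpa using h1⟩
      simp only [mem_filter, mem_univ, true_and] at a1 a2
      have hne : b ≠ a := by rintro rfl; exact h3 ⟨h1, h2, a2⟩
      have hlt : ρ a < ρ b := lt_of_le_of_ne (a2 b h1) fun e => hne (E.inj e).symm
      exact ⟨a, E.clq v a b (E.adj _ _ a1 (hlt.trans h2)) (E.adj _ _ h1 h2) hlt, h1, a1.symm, hne⟩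
    · rintro a - x ⟨-, x1, x2, x3⟩ y ⟨-, y1, y2, -⟩
      exact g4 hg x3 x1 x2 y1 y2
  have c2 : (univ.filter fun v => Par G ρ b v ∧ Exc G ρ v).card ≤ (Bk b).card := by
    refine card_le_card_of_forall_subsingleton
      (fun v a => b ≠ a ∧ G.Adj b v ∧ v ≠ a ∧ ∃ u, G.Adj v u ∧ G.Adj u a ∧ b ≠ u) ?_ ?_
    · intro v hv
      obtain ⟨h1, b', u, a, e1, e2, e3, e4, e5, e6⟩ := (mem_filter.1 hv).2
      obtain rfl := par_unique E h1 e1
      have l1 := h1.2.1
      refine ⟨a, ?_, by rintro rfl; omega, h1.1, by rintro rfl; omega, u, e2, e5.1.symm, e4.symm⟩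
      have m1 := E.adj _ _ h1.1 l1
      have m2 := E.adj _ _ e5.1 e5.2.1
      rcases lt_trichotomy (ρ v) (ρ u) with e | e | e
      · exact E.clq v a b (E.clq u a v m2 (E.adj _ _ e2 e) (by omega)) m1 e6
      · exact absurd (E.inj e) e2.ne
      · have : ρ b < ρ u := lt_of_le_of_ne (h1.2.2 u e2.symm) fun e => e4 (E.inj e).symm
        exact E.clq u a b m2 (E.clq v b u m1 (E.adj _ _ e2.symm e) this) e6
    · rintro a - x ⟨-, x1, x2, x3, u, x4, x5, x6⟩ y ⟨-, -, y2, y3, u', y4, y5, y6⟩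
      exact g6 hg x1 x2 x4 x5 x6 x3 y2 y4 y5 y6 y3
  have := E.card b
  have := card_union_le (Bk b ∪ (univ.filter fun v => G.Adj b v ∧ ρ b < ρ v ∧ ¬ Par G ρ b v))
    (univ.filter fun v => Par G ρ b v ∧ Exc G ρ v)
  have := card_union_le (Bk b) (univ.filter fun v => G.Adj b v ∧ ρ b < ρ v ∧ ¬ Par G ρ b v)
  beta_reduce
  omega

theorem main (k : ℕ) : ∃ c : ℕ, ∀ (V : Type) [Fintype V] (G : SimpleGraph V) (ρ : V → ℕ)
    (Bk : V → Finset V), Elim G k ρ Bk → ((7 : ℕ) : ℕ∞) ≤ G.egirth →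
    ∃ f : V → Bool, ∀ s : Finset V, (∀ x ∈ s, ∀ y ∈ s, f x = f y) →
      (G.induce (s : Set V)).Connected → s.card ≤ c := by
  classical
  set d := 3 * k with hd
  set K := (k + 1) * (d + 1) with hK
  set M := 2 * (16 * K * (d + d * d + 1)) with hM
  refine ⟨M + M * d + 1, fun V _ G ρ Bk E hg => ?_⟩
  obtain ⟨nb, n1, n2⟩ := deg E hg
  rw [← hd] at n2
  have rs : ∀ x y, RR G ρ x y → RR G ρ y x := fun x y h => ⟨h.1.symm, h.2.2, h.2.1⟩
  have K1 : 1 ≤ K := Nat.mul_pos (by omega) (by omega)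
  obtain ⟨χ, hχ⟩ := adov (fun x y => RR G ρ x y ∨ ∃ z, RR G ρ x z ∧ RR G ρ z y)
    (fun x y h => h.imp (rs x y) fun ⟨z, a, b⟩ => ⟨z, rs _ _ b, rs _ _ a⟩) K (d + d * d + 1) K1
    (by omega) (fun x => nb x ∪ (nb x).biUnion nb)
    (fun x y h => mem_union.2 (h.imp (n1 x y) fun ⟨z, a, b⟩ =>
      mem_biUnion.2 ⟨z, n1 _ _ a, n1 _ _ b⟩))
    (fun x => by
      have := card_union_le (nb x) ((nb x).biUnion nb)
      have := (card_biUnion_le_card_mul (nb x) nb d fun y _ => n2 y).trans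
        (Nat.mul_le_mul_right d (n2 x))
      have := n2 x
      omega)
    (fun S hS => by
      obtain ⟨A, X, x1, x2, x3, x4, x5⟩ := sep0 E S (5 * K) (by omega) (by omega)
      have cX : (X ∪ X.biUnion nb).card ≤ K := by
        have := card_union_le X (X.biUnion nb)
        have := (card_biUnion_le_card_mul X nb d fun y _ => n2 y).trans
          (Nat.mul_le_mul_right d x1)
        rw [hK, mul_add]; omega
      refine ⟨A \ (X ∪ X.biUnion nb), X ∪ X.biUnion nb, cX, sdiff_disjoint, ?_, ?_, ?_⟩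
      · intro x hx y h
        obtain ⟨a1, a2⟩ := mem_sdiff.1 hx
        have fin : y ∈ A ∨ y ∈ X → y ∈ A \ (X ∪ X.biUnion nb) ∨ y ∈ X ∪ X.biUnion nb := by
          intro h
          by_cases e : y ∈ X ∪ X.biUnion nb
          · exact .inr e
          · exact .inl (mem_sdiff.2 ⟨h.resolve_right fun h => e (mem_union_left _ h), e⟩)
        rcases h with h | ⟨z, h1, h2⟩
        · exact fin (x3 x a1 y h.1)
        · rcases x3 x a1 z h1.1 with h | h
          · exact fin (x3 z h y h2.1)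
          · exact (a2 (mem_union_right _ (mem_biUnion.2 ⟨z, h, n1 _ _ (rs _ _ h1)⟩))).elim
      · have : S ∩ A ⊆ S ∩ (A \ (X ∪ X.biUnion nb)) ∪ (X ∪ X.biUnion nb) := fun y => by
          generalize X ∪ X.biUnion nb = Y
          grind
        have := (card_le_card this).trans (card_union_le _ _)
        omega
      · have : S ⊆ S \ (A \ (X ∪ X.biUnion nb) ∪ (X ∪ X.biUnion nb)) ∪
            (S ∩ A ∪ (X ∪ X.biUnion nb)) := fun y => by
          generalize X ∪ X.biUnion nb = Y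
          grind
        have := (card_le_card this).trans (card_union_le _ _)
        have := card_union_le (S ∩ A) (X ∪ X.biUnion nb)
        omega)
  have : ∀ v, ∃ b, Fo G ρ v → Par G ρ b v := fun v => by
    by_cases h : Fo G ρ v
    · exact h.1.imp fun b hb _ => hb
    · exact ⟨v, fun h' => absurd h' h⟩
  choose pr hpr using this
  let f := col ρ (Fo G ρ) pr (fun v h => (hpr v h).2.1) χ
  have f1 : ∀ v, ¬ Fo G ρ v → f v = χ v := fun v h => by
    simp only [f]; rw [col, dif_neg h]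
  have f2 : ∀ b v, Par G ρ b v → Fo G ρ v → f b ≠ f v := fun b v h1 h => by
    have : f v = !f (pr v) := by simp only [f]; rw [col, dif_pos h]
    rw [this, par_unique E (hpr v h) h1]
    cases f b <;> simp
  refine ⟨f, fun s hs hc => ?_⟩
  have rr : ∀ x y : (s : Set V), (G.induce (s : Set V)).Adj x y → RR G ρ x y := fun x y h =>
    ⟨h, fun e => f2 _ _ e.1 e.2 (hs _ x.2 _ y.2), fun e => f2 _ _ e.1 e.2 (hs _ y.2 _ x.2)⟩
  by_cases h : ∃ x ∈ s, ¬ Fo G ρ x
  · obtain ⟨x, x1, x2⟩ := h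
    obtain ⟨C, c1, c2, c3⟩ := hχ x
    rw [← hM] at c2
    have key : ∀ y : (s : Set V), Relation.ReflTransGen (G.induce (s : Set V)).Adj ⟨x, x1⟩ y →
        (¬ Fo G ρ y → y.1 ∈ C) ∧ (Fo G ρ y → ∃ z ∈ C, z ∈ s ∧ ¬ Fo G ρ z ∧ RR G ρ z y) := by
      intro y h
      induction h with
      | refl => exact ⟨fun _ => c1, fun h => absurd h x2⟩
      | @tail y y' _ h ih =>
        have r := rr _ _ h
        refine ⟨fun h' => ?_, fun h' => ?_⟩
        · by_cases hy : Fo G ρ y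
          · obtain ⟨z, z1, z2, z3, z4⟩ := ih.2 hy
            exact c3 z z1 _ (.inr ⟨_, z4, r⟩) (by rw [← f1 _ z3, ← f1 _ h']; exact hs _ z2 _ y'.2)
          · exact c3 _ (ih.1 hy) _ (.inl r) (by rw [← f1 _ hy, ← f1 _ h']; exact hs _ y.2 _ y'.2)
        · have hy : ¬ Fo G ρ y := fun hy => indep E hg hy h' r
          exact ⟨y, ih.1 hy, y.2, hy, r⟩
    have sub : s ⊆ C ∪ C.biUnion nb := by
      intro y hy
      have := key ⟨y, hy⟩ ((reachable_iff_reflTransGen _ _).1 (hc _ _))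
      by_cases h : Fo G ρ y
      · obtain ⟨z, z1, -, -, z4⟩ := this.2 h
        exact mem_union_right _ (mem_biUnion.2 ⟨z, z1, n1 _ _ z4⟩)
      · exact mem_union_left _ (this.1 h)
    have := (card_le_card sub).trans (card_union_le _ _)
    have := (card_biUnion_le_card_mul C nb d fun y _ => n2 y).trans (Nat.mul_le_mul_right d c2)
    omega
  · push Not at h
    refine le_trans (card_le_one.2 fun a ha b hb => ?_) (by omega)
    obtain ⟨w⟩ := hc ⟨a, ha⟩ ⟨b, hb⟩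
    by_contra hne
    obtain ⟨x, h', -⟩ := w.exists_eq_cons_of_ne fun e => hne (congrArg Subtype.val e)
    exact indep E hg (h _ ha) (h _ x.2) (rr _ _ h')

end Pool.Agent.H.MP_de06d2_co
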